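import Pool.Agent.Helper93.TCU.SStmt2

/-!
# T10, SPQ: (H3') of the S-stage (helper74)
-/

set_option autoImplicit false

namespace Pool.TCU

open Pool.TC Pool.TCM Pool.TCS Pool.TCV Finset
open scoped Classical

/-- the probability `β` -/
private theorem SPq_bet (K : ℕ) (hK : 1 ≤ K) : 3 / (32 * (K : ℝ)) ≤ bet (8 * K) K ∧
    bet (8 * K) K ≤ 1 / (8 * (K : ℝ)) := by
  have hK' : (1 : ℝ) ≤ K := by exact_mod_cast hK
  have hK0 : (0 : ℝ) < K := by linarith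
  have h1 : 1 / ((8 * K : ℕ) : ℝ) = 1 / (8 * (K : ℝ)) := by push_cast; ring
  have h2 : 0 < 1 / (8 * (K : ℝ)) := by positivity
  have h3 : 1 / (8 * (K : ℝ)) ≤ 1 := by
    rw [div_le_one (by positivity)]
    linarith
  unfold bet
  rw [h1]
  constructor
  · have h4 := one_add_mul_le_pow (a := -(1 / (8 * (K : ℝ)))) (by linarith) (2 * K)
    have h5 : 1 + ((2 * K : ℕ) : ℝ) * -(1 / (8 * (K : ℝ))) = 3 / 4 := by
      push_cast
      field_simp
      norm_num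
    rw [h5, ← sub_eq_add_neg] at h4
    calc 3 / (32 * (K : ℝ)) = 1 / (8 * (K : ℝ)) * (3 / 4) := by
          field_simp
          norm_num
      _ ≤ _ := mul_le_mul_of_nonneg_left h4 h2.le
  · have h4 : (1 - 1 / (8 * (K : ℝ))) ^ (2 * K) ≤ 1 := pow_le_one₀ (by linarith) (by linarith)
    calc 1 / (8 * (K : ℝ)) * (1 - 1 / (8 * (K : ℝ))) ^ (2 * K) ≤ 1 / (8 * (K : ℝ)) * 1 :=
          mul_le_mul_of_nonneg_left h4 h2.le
      _ = _ := mul_one _

/-- the numbers -/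
private theorem SPq_num (P : Par) (hP : Num10 P) :
    0 < sb P ∧ sb P ≤ 1 / 8 ∧ 0 < P.delta ∧ P.delta ≤ 1 ∧ 0 < (1 / 2 : ℝ) ^ P.r ∧
    (1 / 2 : ℝ) ^ P.r ≤ 1 / 128 ∧ (1 / 2 : ℝ) ^ P.r ≤ sb P ^ 2 * P.delta / 80 ∧ 10 ≤ P.nz ∧
    1000 * P.nz ≤ sb P * P.delta * P.D ∧ P.delta ≤ P.xi ∧ 0 < P.eta ∧
    10300 * P.delta ≤ P.eta ^ 3 := by
  have hX : (10 : ℝ) ^ 20 ≤ P.X := by exact_mod_cast hP.X0
  have hX1 : (1 : ℝ) ≤ P.X := le_trans (by norm_num) hX
  have hX0 : (0 : ℝ) < P.X := by linarith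
  have hXN : 1 ≤ P.X := le_trans (by norm_num) hP.X0
  have hkn : 1 ≤ P.kn := by rw [hP.kn]; exact Nat.one_le_pow _ _ hXN
  have hknX : (P.kn : ℝ) = (P.X : ℝ) ^ 3 := by rw [hP.kn]; push_cast; rfl
  obtain ⟨b1, b2⟩ := SPq_bet P.kn hkn
  have hβ0 : 0 < sb P := lt_of_lt_of_le (by rw [hknX]; positivity) b1
  have hβ1 : sb P ≤ 1 / 8 := by
    refine le_trans b2 ?_
    rw [hknX, div_le_div_iff₀ (by positivity) (by norm_num)]
    have : (1 : ℝ) ≤ (P.X : ℝ) ^ 3 := one_le_pow₀ hX1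
    linarith
  have hδ0 : 0 < P.delta := by rw [hP.delta]; positivity
  have hδ1 : P.delta ≤ 1 := by
    rw [hP.delta, div_le_one (by positivity)]
    exact one_le_pow₀ hX1
  have hh0 : 0 < (1 / 2 : ℝ) ^ P.r := by positivity
  have hh1 : (1 / 2 : ℝ) ^ P.r ≤ 1 / 128 := by
    calc (1 / 2 : ℝ) ^ P.r ≤ (1 / 2) ^ 7 :=
          pow_le_pow_of_le_one (by norm_num) (by norm_num) hP.r7
      _ = 1 / 128 := by norm_num
  have hD0 : (0 : ℝ) < P.D := lt_of_lt_of_le (by positivity) hP.XD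
  have hsq : (P.X : ℝ) ^ 10000 ≤ Real.sqrt P.D := by
    refine Real.le_sqrt_of_sq_le ?_
    rw [← pow_mul]
    exact le_trans (pow_le_pow_right₀ hX1 (by norm_num)) hP.XD
  have hsq0 : 0 < Real.sqrt P.D := Real.sqrt_pos.2 hD0
  have hnz : (P.X : ℝ) ^ 9990 * P.nz ≤ P.D := by
    rw [hP.nz, ← mul_assoc, ← pow_add]
    calc (P.X : ℝ) ^ (9990 + 10) * Real.sqrt P.D ≤ Real.sqrt P.D * Real.sqrt P.D :=
          mul_le_mul_of_nonneg_right hsq hsq0.le
      _ = P.D := Real.mul_self_sqrt hD0.le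
  have hnz1 : 10 ≤ P.nz := by
    rw [hP.nz]
    have e1 : (1 : ℝ) ≤ Real.sqrt P.D := le_trans (one_le_pow₀ hX1) hsq
    have e2 : (10 : ℝ) ≤ (P.X : ℝ) ^ 10 := by
      calc (10 : ℝ) ≤ P.X := le_trans (by norm_num) hX
        _ = (P.X : ℝ) ^ 1 := (pow_one _).symm
        _ ≤ (P.X : ℝ) ^ 10 := pow_le_pow_right₀ hX1 (by norm_num)
    nlinarith
  refine ⟨hβ0, hβ1, hδ0, hδ1, hh0, hh1, hP.r2, hnz1, ?_, ?_, ?_, ?_⟩
  · -- `1000 nz ≤ β δ D`
    have e1 : 1000 ≤ sb P * P.delta * (P.X : ℝ) ^ 9990 := by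
      have e2 : 3 / (32 * (P.X : ℝ) ^ 3) * (1 / (P.X : ℝ) ^ 4900) * (P.X : ℝ) ^ 9990 ≤
          sb P * P.delta * (P.X : ℝ) ^ 9990 := by
        rw [hP.delta]
        rw [hknX] at b1
        refine mul_le_mul_of_nonneg_right (mul_le_mul_of_nonneg_right b1 ?_) ?_ <;> positivity
      refine le_trans ?_ e2
      have e3 : 3 / (32 * (P.X : ℝ) ^ 3) * (1 / (P.X : ℝ) ^ 4900) * (P.X : ℝ) ^ 9990 =
          3 / 32 * (P.X : ℝ) ^ 5087 := by
        have e4 : (P.X : ℝ) ^ 9990 = (P.X : ℝ) ^ 3 * (P.X : ℝ) ^ 4900 * (P.X : ℝ) ^ 5087 := by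
          rw [← pow_add, ← pow_add]
        rw [e4]
        field_simp
      rw [e3]
      have e5 : (P.X : ℝ) ≤ (P.X : ℝ) ^ 5087 := by
        calc (P.X : ℝ) = (P.X : ℝ) ^ 1 := (pow_one _).symm
          _ ≤ _ := pow_le_pow_right₀ hX1 (by norm_num)
      have e6 : (10 : ℝ) ^ 20 ≤ (P.X : ℝ) ^ 5087 := le_trans hX e5
      have e7 : (20000 : ℝ) ≤ (10 : ℝ) ^ 20 := by norm_num
      linarith
    have hnz0 : 0 < P.nz := by linarith
    calc 1000 * P.nz ≤ sb P * P.delta * (P.X : ℝ) ^ 9990 * P.nz :=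
          mul_le_mul_of_nonneg_right e1 hnz0.le
      _ = sb P * P.delta * ((P.X : ℝ) ^ 9990 * P.nz) := by ring
      _ ≤ sb P * P.delta * P.D := mul_le_mul_of_nonneg_left hnz (by positivity)
  · -- `δ ≤ ξ`
    rw [hP.xi, hP.pmax, hP.Lam, hP.theta]
    have e1 : 2000 * (P.X : ℝ) ^ 3 * (103 * P.delta / (1 / (P.X : ℝ) ^ 14)) =
        P.delta * (206000 * (P.X : ℝ) ^ 17) := by
      have e4 : (P.X : ℝ) ^ 17 = (P.X : ℝ) ^ 3 * (P.X : ℝ) ^ 14 := by rw [← pow_add]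
      rw [e4]
      field_simp
      norm_num
    rw [e1]
    have e2 : (1 : ℝ) ≤ (P.X : ℝ) ^ 17 := one_le_pow₀ hX1
    nlinarith
  · rw [hP.eta]
    positivity
  · rw [hP.eta, hP.delta, div_pow, one_pow, ← pow_mul]
    have e1 : (P.X : ℝ) ^ 4900 = (P.X : ℝ) ^ (1600 * 3) * (P.X : ℝ) ^ 100 := by
      rw [← pow_add]
    rw [e1]
    have e2 : (10300 : ℝ) ≤ (P.X : ℝ) ^ 100 := by
      calc (10300 : ℝ) ≤ P.X := le_trans (by norm_num) hX
        _ = (P.X : ℝ) ^ 1 := (pow_one _).symm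
        _ ≤ _ := pow_le_pow_right₀ hX1 (by norm_num)
    have e3 : 0 < (P.X : ℝ) ^ (1600 * 3) := by positivity
    have e4 : 0 < (P.X : ℝ) ^ 100 := by positivity
    rw [mul_one_div, div_le_div_iff₀ (by positivity) e3]
    nlinarith

/-- the length of the lists -/
private theorem SPq_sl {V κ : Type} [Fintype V] [Fintype κ] (P : Par) (t : Td V κ)
    (hP : Num10 P) (hj : (t.J0.card : ℝ) ≤ (1 / 2) ^ P.r * ((P.D : ℝ) + 1)) :
    (P.D : ℝ) / 2 * (1 - (1 / 2) ^ P.r) - 4 * P.nz - 1 ≤ sl P t ∧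
    (sl P t : ℝ) ≤ (P.D : ℝ) / 2 := by
  obtain ⟨b0, b1, d0, d1, h0, h1, -, n1, n2, -⟩ := SPq_num P hP
  have hD0 : (0 : ℝ) < P.D := by
    have : 0 < sb P * P.delta * P.D := by linarith
    by_contra h
    have h' : (P.D : ℝ) ≤ 0 := not_lt.1 h
    nlinarith [mul_pos b0 d0]
  have hnzD : 1000 * P.nz ≤ P.D := by
    have : sb P * P.delta ≤ 1 := by nlinarith
    nlinarith
  have hfl := Nat.sub_one_lt_floor (((P.D : ℝ) + 1 - t.J0.card) / 2 - 4 * P.nz)
  constructor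
  · unfold sl
    nlinarith
  · unfold sl
    have e1 : 0 ≤ ((P.D : ℝ) + 1 - t.J0.card) / 2 - 4 * P.nz := by nlinarith
    have e2 := Nat.floor_le e1
    have e3 : (0 : ℝ) ≤ t.J0.card := Nat.cast_nonneg _
    linarith

/-- case 1: few candidates -/
private theorem SPq_case1 (D l nz h0 b d dk c vir y : ℝ) (hD : 0 < D) (hb0 : 0 < b)
    (hb1 : b ≤ 1 / 8) (hd0 : 0 < d) (hh : h0 ≤ b ^ 2 * d / 80)
    (hn : 10 ≤ nz) (hn2 : 1000 * nz ≤ b * d * D) (hl1 : D / 2 * (1 - h0) - 4 * nz - 1 ≤ l)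
    (hl2 : l ≤ D / 2) (hl0 : 0 < l) (hc : c ≤ (D - dk + vir) / 2 + nz) (hv : vir ≤ dk / 100)
    (hy : y ≤ b * c / l) :
    (d * D / 4 ≤ dk → y ≤ b - b ^ 2 * d / 10) ∧
    (dk ≤ D → 20 * d * D ≤ dk → y ≤ b * (1 - 9 / 10 * (dk / D))) := by
  have hbd : 0 < b * d := mul_pos hb0 hd0
  have hbb : b ^ 2 * d ≤ b * d / 8 := by nlinarith
  have hbd8 : b * d ≤ d / 8 := by nlinarith
  have hh' : h0 ≤ d / 5120 := by linarith
  have hDh : D * h0 ≤ d * D / 5120 := by nlinarith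
  have hnn : 1000 * nz ≤ d * D / 8 := by nlinarith
  have hdD : 0 < d * D := mul_pos hd0 hD
  constructor
  · intro h1
    refine le_trans hy ?_
    rw [div_le_iff₀ hl0]
    have e1 : c ≤ (1 - b * d / 10) * l := by
      have e2 : b * d * l ≤ d / 8 * (D / 2) := by
        calc b * d * l ≤ b * d * (D / 2) := mul_le_mul_of_nonneg_left hl2 hbd.le
          _ ≤ d / 8 * (D / 2) := mul_le_mul_of_nonneg_right hbd8 (by positivity)
      nlinarith
    calc b * c ≤ b * ((1 - b * d / 10) * l) := mul_le_mul_of_nonneg_left e1 hb0.le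
      _ = _ := by ring
  · intro h1 h2
    refine le_trans hy ?_
    rw [div_le_iff₀ hl0]
    have e0 : 0 ≤ 1 - 9 / 10 * (dk / D) := by
      have : dk / D ≤ 1 := by
        rw [div_le_one hD]
        exact h1
      linarith
    have e1 : c ≤ (1 - 9 / 10 * (dk / D)) * l := by
      have e3 : (1 - 9 / 10 * (dk / D)) * (D / 2 * (1 - h0) - 4 * nz - 1) ≤
          (1 - 9 / 10 * (dk / D)) * l := mul_le_mul_of_nonneg_left hl1 e0
      refine le_trans ?_ e3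
      have e4 : (1 - 9 / 10 * (dk / D)) * (D / 2 * (1 - h0) - 4 * nz - 1) =
          (D - 9 / 10 * dk) / 2 - (1 - 9 / 10 * (dk / D)) * (D / 2 * h0 + 4 * nz + 1) := by
        field_simp
        ring
      rw [e4]
      have e5 : (1 - 9 / 10 * (dk / D)) * (D / 2 * h0 + 4 * nz + 1) ≤
          d * D / 10240 + 4 * nz + 1 := by
        have e6 : 0 ≤ 9 / 10 * (dk / D) := by
          have : 0 ≤ dk := by linarith
          positivity
        have e7 : (1 - 9 / 10 * (dk / D)) * (D / 2 * h0 + 4 * nz + 1) ≤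
            (1 - 9 / 10 * (dk / D)) * (d * D / 10240 + 4 * nz + 1) :=
          mul_le_mul_of_nonneg_left (by linarith) e0
        have e8 : (1 - 9 / 10 * (dk / D)) * (d * D / 10240 + 4 * nz + 1) ≤
            1 * (d * D / 10240 + 4 * nz + 1) :=
          mul_le_mul_of_nonneg_right (by linarith) (by linarith)
        linarith
      linarith
    calc b * c ≤ b * ((1 - 9 / 10 * (dk / D)) * l) := mul_le_mul_of_nonneg_left e1 hb0.le
      _ = _ := by ring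

/-- case 2: many non-adjacent pairs -/
private theorem SPq_case2 (D l nz h0 b d s c np y : ℝ) (hD : 0 < D) (hb0 : 0 < b)
    (hb1 : b ≤ 1 / 8) (hd0 : 0 < d) (hd1 : d ≤ 1) (hh0 : 0 < h0) (hh : h0 ≤ b ^ 2 * d / 80)
    (hn : 10 ≤ nz) (hn2 : 1000 * nz ≤ b * d * D) (hl1 : D / 2 * (1 - h0) - 4 * nz - 1 ≤ l)
    (hl2 : l ≤ D / 2) (hl0 : 0 < l) (hs : 0 ≤ s) (hc : c ≤ (D - s) / 2 + nz)
    (hnp : (99 / 100 * (d * D ^ 2) - 2 * s * D) / 4 - D * nz ≤ 2 * np)
    (hy : y ≤ b * c / l - b ^ 2 / 2 * np / l ^ 2) : y ≤ b - b ^ 2 * d / 10 := by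
  have hbd : 0 < b * d := mul_pos hb0 hd0
  have hbb : b ^ 2 * d ≤ b * d / 8 := by nlinarith
  have hbd1 : b * d ≤ 1 / 8 := by nlinarith
  have hh' : h0 ≤ b * d / 640 := by linarith
  have hnD : nz ≤ D / 8000 := by nlinarith
  have hl3 : D / 4 ≤ l := by nlinarith
  refine le_trans hy ?_
  have hl2' : 0 < l ^ 2 := by positivity
  have e1 : b * c / l - b ^ 2 / 2 * np / l ^ 2 = (b * c * l - b ^ 2 / 2 * np) / l ^ 2 := by
    field_simp
  rw [e1, div_le_iff₀ hl2']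
  have e2 : c * l - b / 2 * np ≤ (1 - b * d / 10) * l ^ 2 := by
    have f1 : c * l ≤ ((D - s) / 2 + nz) * l := mul_le_mul_of_nonneg_right hc hl0.le
    have f2 : b / 4 * ((99 / 100 * (d * D ^ 2) - 2 * s * D) / 4 - D * nz) ≤ b / 2 * np := by
      have := mul_le_mul_of_nonneg_left hnp (show 0 ≤ b / 4 by positivity)
      linarith
    have f3 : s * (b * D / 8) ≤ s * (l / 2) := by
      refine mul_le_mul_of_nonneg_left ?_ hs
      nlinarith
    have f4 : l * (D / 2 + nz - l) ≤ D / 2 * (D / 2 * h0 + 5 * nz + 1) := by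
      have g1 : D / 2 + nz - l ≤ D / 2 * h0 + 5 * nz + 1 := by linarith
      have g2 : 0 ≤ D / 2 * h0 + 5 * nz + 1 := by positivity
      calc l * (D / 2 + nz - l) ≤ l * (D / 2 * h0 + 5 * nz + 1) :=
            mul_le_mul_of_nonneg_left g1 hl0.le
        _ ≤ _ := mul_le_mul_of_nonneg_right hl2 g2
    have f5 : l ^ 2 ≤ D ^ 2 / 4 := by nlinarith
    have f6 : b * d * l ^ 2 ≤ b * d * (D ^ 2 / 4) := mul_le_mul_of_nonneg_left f5 hbd.le
    have f7 : D ^ 2 * h0 ≤ D ^ 2 * (b * d / 640) := mul_le_mul_of_nonneg_left hh' (by positivity)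
    have f8 : D * (1000 * nz) ≤ D * (b * d * D) := mul_le_mul_of_nonneg_left hn2 hD.le
    have f9 : b * (D * nz) ≤ 1 / 8 * (D * nz) :=
      mul_le_mul_of_nonneg_right hb1 (by positivity)
    have f10 : D * 10 ≤ D * nz := mul_le_mul_of_nonneg_left hn hD.le
    nlinarith
  calc b * c * l - b ^ 2 / 2 * np = b * (c * l - b / 2 * np) := by ring
    _ ≤ b * ((1 - b * d / 10) * l ^ 2) := mul_le_mul_of_nonneg_left e2 hb0.le
    _ = _ := by ring

theorem thm_SPq (h1 : St_SPuc) (h2 : St_SNp) (h3 : St_SMon) : St_SPq := by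
  intro P V κ _ _ t X cX L hP hB hL u hu a ha
  obtain ⟨b0, b1, d0, d1, r0, r1, r2, n1, n2, xi1, et0, et1⟩ := SPq_num P hP
  obtain ⟨l1, l2⟩ := SPq_sl P t hP hB.ed.j0
  have hD0 : (0 : ℝ) < P.D := by
    by_contra h
    have h' : (P.D : ℝ) ≤ 0 := not_lt.1 h
    nlinarith [mul_pos b0 d0]
  have hbd1 : sb P * P.delta ≤ 1 / 8 := by nlinarith
  have hnzD : 1000 * P.nz ≤ P.D / 8 := by nlinarith
  have hl0 : (0 : ℝ) < sl P t := by nlinarith
  have hU : t.K u = none ∧ ¬ t.F0 u := (mem_filter.1 hu).2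
  have haO := (mem_filter.1 (hL u hu ha)).2
  have haJ : a ∉ t.J0 := haO.1
  set PU := t.PU P u a with hPU
  set CP := PU.filter (fun w => t.cr w a) with hCP
  have hs3 : (CP.card : ℝ) ≤ (PU.card : ℝ) / 2 + P.nz := hB.ts.s3 u a hU.1 haJ
  have hsub : Pn (sCS P t) (sU t) L u a ⊆ CP := by
    intro w hw
    obtain ⟨-, hw1, hw2, hw3⟩ := mem_filter.1 hw
    have hO := (mem_filter.1 (hL w hw1 hw3)).2
    exact mem_filter.2 ⟨mem_filter.2 ⟨mem_univ _, hw2, (mem_filter.1 hw1).2, hO.2.1.1⟩, hO.2.1⟩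
  have hcard : ((Pn (sCS P t) (sU t) L u a).card : ℝ) ≤ CP.card :=
    Nat.cast_le.2 (card_le_card hsub)
  have hpuc := (h1 P V κ t hP hB).1 u a hU.1
  rw [← hPU] at hpuc
  -- the virtual neighbours
  set vir : ℝ := if t.A P u then 0 else 103 * P.delta * P.D / P.eta ^ 2 with hvir
  have hdk0 : (0 : ℝ) ≤ t.dKU u := Nat.cast_nonneg _
  have hdkD : (t.dKU u : ℝ) ≤ P.D := by
    rw [← hB.gr.reg u]
    exact Nat.cast_le.2 (card_le_card (filter_subset _ _))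
  have hvir1 : vir ≤ (t.dKU u : ℝ) / 100 := by
    rw [hvir]
    split_ifs with hA
    · positivity
    · have e1 := hB.gr.hvk u hU.1 hA
      have e2 : 103 * P.delta * P.D / P.eta ^ 2 ≤ P.eta * P.D / 100 := by
        rw [div_le_iff₀ (by positivity)]
        nlinarith
      linarith
  have hc : (CP.card : ℝ) ≤ ((P.D : ℝ) - t.dKU u + vir) / 2 + P.nz := by linarith
  have hCPD : (CP.card : ℝ) ≤ (P.D : ℝ) / 2 + P.nz := by linarith
  have hA : ((Pn (sCS P t) (sU t) L u a).card : ℝ) ≤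
      (1 + 2 * (1 / 2) ^ P.r) * sl P t + 8 * P.nz := by
    refine le_trans hcard (le_trans hCPD ?_)
    have e1 : (1 + 2 * (1 / 2 : ℝ) ^ P.r) *
        ((P.D : ℝ) / 2 * (1 - (1 / 2) ^ P.r) - 4 * P.nz - 1) ≤
        (1 + 2 * (1 / 2) ^ P.r) * sl P t := mul_le_mul_of_nonneg_left l1 (by positivity)
    have e2 : (P.D : ℝ) / 2 ≤ (P.D : ℝ) / 2 * ((1 + 2 * (1 / 2 : ℝ) ^ P.r) *
        (1 - (1 / 2) ^ P.r)) := by
      have : (1 : ℝ) ≤ (1 + 2 * (1 / 2 : ℝ) ^ P.r) * (1 - (1 / 2) ^ P.r) := by nlinarith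
      nlinarith
    nlinarith
  have hmon := h3 V κ (sCS P t) (Pn (sCS P t) (sU t) L u a) CP (sb P) (sl P t) hsub b0.le hl0
    (by nlinarith [Nat.cast_nonneg (α := ℝ) CP.card])
  have hy : pq (sCS P t) (sU t) L (sl P t) (8 * P.kn) P.kn u a ≤
      sb P * (CP.card : ℝ) / (sl P t : ℝ) -
        sb P ^ 2 / 2 * npair (sCS P t) CP / (sl P t : ℝ) ^ 2 := hmon
  have hnp0 : 0 ≤ npair (sCS P t) CP := by unfold npair; positivity
  have hy1 : pq (sCS P t) (sU t) L (sl P t) (8 * P.kn) P.kn u a ≤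
      sb P * (CP.card : ℝ) / (sl P t : ℝ) := by
    refine le_trans hy ?_
    have : 0 ≤ sb P ^ 2 / 2 * npair (sCS P t) CP / (sl P t : ℝ) ^ 2 := by positivity
    linarith
  obtain ⟨c1, c2⟩ := SPq_case1 P.D (sl P t) P.nz ((1 / 2) ^ P.r) (sb P) P.delta (t.dKU u)
    CP.card vir _ hD0 b0 b1 d0 r2 n1 n2 l1 l2 hl0 hc hvir1 hy1
  refine ⟨hA, ?_, ?_⟩
  · by_cases hcase : P.delta * P.D / 4 ≤ (t.dKU u : ℝ)
    · exact c1 hcase
    · have hlt : (t.dKU u : ℝ) < P.delta * P.D / 4 := not_le.1 hcase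
      have hAu : t.A P u := by
        by_contra hA'
        have e1 := hB.gr.hvk u hU.1 hA'
        have e2 : P.delta ≤ P.eta := by
          have e3 : P.eta ≤ 1 := by
            by_contra h
            have h' : 1 < P.eta := not_le.1 h
            have hX1 : (1 : ℝ) ≤ P.X := by
              exact_mod_cast (le_trans (by norm_num) hP.X0 : 1 ≤ P.X)
            have : P.eta ≤ 1 := by
              rw [hP.eta, div_le_one (by positivity)]
              exact one_le_pow₀ hX1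
            linarith
          have e4 : P.eta ^ 3 ≤ P.eta := by
            have : P.eta ^ 2 ≤ 1 := pow_le_one₀ et0.le e3
            nlinarith
          linarith
        nlinarith
      have hPUD : (PU.card : ℝ) ≤ P.D := by
        rw [hvir, if_pos hAu] at hpuc
        linarith
      have hsnp := h2 P V κ t hP hB u a hAu (by linarith)
      rw [← hPU] at hsnp
      have hs4 := hB.ts.s4 u a hU.1 haJ
      rw [← hPU] at hs4
      have heq : (((PU ×ˢ PU).filter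
          (fun w => w.1 ≠ w.2 ∧ ¬ t.adj' P w.1 w.2 ∧ t.cr w.1 a ∧ t.cr w.2 a)).card : ℝ) =
          2 * npair (sCS P t) CP := by
        unfold npair
        have : (PU ×ˢ PU).filter
            (fun w => w.1 ≠ w.2 ∧ ¬ t.adj' P w.1 w.2 ∧ t.cr w.1 a ∧ t.cr w.2 a) =
            (CP ×ˢ CP).filter (fun p => p.1 ≠ p.2 ∧ ¬ (sCS P t).adj p.1 p.2) := by
          ext p
          rw [mem_filter, mem_filter, mem_product, mem_product, hCP, mem_filter, mem_filter]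
          constructor
          · rintro ⟨⟨q1, q2⟩, q3, q4, q5, q6⟩
            exact ⟨⟨⟨q1, q5⟩, q2, q6⟩, q3, q4⟩
          · rintro ⟨⟨⟨q1, q5⟩, q2, q6⟩, q3, q4⟩
            exact ⟨⟨q1, q2⟩, q3, q4, q5, q6⟩
        rw [this]
        ring
      rw [heq] at hs4
      have hd2 := hB.gr.d2 u hU.1
      refine SPq_case2 P.D (sl P t) P.nz ((1 / 2) ^ P.r) (sb P) P.delta (P.D - PU.card)
        CP.card (npair (sCS P t) CP) _ hD0 b0 b1 d0 d1 r0 r2 n1 n2 l1 l2 hl0 (by linarith)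
        (by linarith) ?_ hy
      have e1 : P.delta * (P.D : ℝ) ^ 2 ≤ Pool.TN.npr t.G u := hd2
      linarith
  · intro hk
    have e1 : 20 * P.delta ≤ (t.dKU u : ℝ) / P.D := by
      refine le_trans ?_ hk
      unfold sk1
      rw [le_div_iff₀ b0]
      have : P.delta * sb P ≤ P.delta * 1 := mul_le_mul_of_nonneg_left (by linarith) d0.le
      linarith
    rw [le_div_iff₀ hD0] at e1
    exact c2 hdkD e1

end Pool.TCU
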