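import Pool.Agent.Helper93.TCU.SStmt2

/-!
# T10, STST: the tests of the S-stage (helper74)
-/

set_option autoImplicit false

namespace Pool.TCU

open Pool.TC Pool.TCM Pool.TCS Pool.TCV Finset
open scoped Classical

section stst

variable {V κ : Type} [Fintype V] [Fintype κ]

private theorem STst_num (P : Par) (hP : Num10 P) : (1 : ℝ) ≤ P.D ∧ 1 ≤ P.eta * P.D ∧
    0 < P.eta ∧ 0 < P.delta := by
  have hX : (10 : ℝ) ^ 20 ≤ P.X := by exact_mod_cast hP.X0
  have hX1 : (1 : ℝ) ≤ P.X := le_trans (by norm_num) hX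
  have hX0 : (0 : ℝ) < P.X := by linarith
  have hD : (P.X : ℝ) ^ 1600 ≤ P.D :=
    le_trans (pow_le_pow_right₀ hX1 (by norm_num)) hP.XD
  have h1 : (1 : ℝ) ≤ (P.X : ℝ) ^ 1600 := one_le_pow₀ hX1
  refine ⟨le_trans h1 hD, ?_, ?_, ?_⟩
  · rw [hP.eta, one_div, inv_mul_eq_div, one_le_div (by positivity)]
    exact hD
  · rw [hP.eta]; positivity
  · rw [hP.delta]; positivity

private theorem STst_ball (P : Par) (t : Td V κ) (n : ℕ) (u : V) :
    ∀ w ∈ ball t.G n u, near (sCS P t) n u w := by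
  induction n with
  | zero =>
    intro w hw
    have : w = u := by simpa [ball] using hw
    exact this.symm
  | succ n ih =>
    intro w hw
    obtain ⟨v, hv, hvw⟩ := mem_biUnion.1 (show w ∈ (ball t.G n u).biUnion
      (fun v => insert v (nb t.G v)) from hw)
    refine ⟨v, ih v hv, ?_⟩
    rcases mem_insert.1 hvw with h | h
    · exact Or.inl h.symm
    · exact Or.inr (Or.inl (Or.inl (mem_filter.1 h).2))

/-- a vertex with a neighbour in the cluster -/
private theorem STst_near (P : Par) (t : Td V κ) (hB : Bse P t) {i y w : V} (hy : t.K y = some i)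
    (hs : stp (sCS P t) y w) : near (sCS P t) 3 i w :=
  ⟨y, STst_ball P t 2 i y (hB.gr.loc i y hy), hs⟩

private theorem STst_dk (t : Td V κ) {i w : V} (h : t.dk i w ≠ 0) :
    ∃ y, t.K y = some i ∧ t.G.Adj w y := by
  obtain ⟨y, hy⟩ := card_ne_zero.1 h
  obtain ⟨h1, h2⟩ := mem_filter.1 hy
  exact ⟨y, h2, (mem_filter.1 h1).2⟩

/-- double counting -/
private theorem STst_dbl (t : Td V κ) (i : V) :
    ∑ w ∈ univ.filter (fun w => t.K w ≠ some i), (t.dk i w : ℝ) ≤ ∑ v ∈ t.Ki i, (t.oo v : ℝ) := by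
  have e1 : ∀ w, (t.dk i w : ℝ) = ∑ v ∈ t.Ki i, if t.G.Adj v w then (1 : ℝ) else 0 := by
    intro w
    unfold Gd.dk Gd.Ki
    rw [card_filter, nb, sum_filter, sum_filter]
    push_cast
    refine sum_congr rfl fun v _ => ?_
    by_cases h1 : t.K v = some i <;> by_cases h2 : t.G.Adj w v <;>
      simp [h1, h2, t.G.adj_comm v w]
  have e2 : ∀ v ∈ t.Ki i, (t.oo v : ℝ) =
      ∑ w ∈ univ.filter (fun w => t.K w ≠ some i), if t.G.Adj v w then (1 : ℝ) else 0 := by
    intro v hv
    have hv' : t.K v = some i := (mem_filter.1 hv).2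
    unfold Gd.oo
    rw [card_filter, nb, sum_filter, sum_filter]
    push_cast
    refine sum_congr rfl fun w _ => ?_
    rw [hv']
    by_cases h1 : t.K w = some i <;> by_cases h2 : t.G.Adj v w <;> simp [h1, h2]
  rw [sum_congr rfl e2, sum_comm]
  exact le_of_eq (sum_congr rfl fun w _ => e1 w)

private theorem STst_nn (P : Par) (t : Td V κ) (j : V ⊕ V ⊕ (V × κ)) (w : V) (b : κ) :
    0 ≤ sT P t j w b := by
  rcases j with i | i | p
  · show (0 : ℝ) ≤ if _ then _ else _
    split_ifs <;> norm_num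
  · show (0 : ℝ) ≤ if _ then _ else _
    split_ifs <;> norm_num
  · show (0 : ℝ) ≤ if _ then _ else _
    split_ifs
    · exact Nat.cast_nonneg _
    · exact le_refl _

/-- row sums -/
private theorem STst_row (P : Par) (t : Td V κ) (hB : Bse P t) (j : V ⊕ V ⊕ (V × κ)) (w : V)
    (hw : t.K w = none) : ∑ b, sT P t j w b ≤ t.dk (sctr j) w := by
  rcases j with i | i | p
  · have e1 : ∑ b, sT P t (Sum.inl i) w b =
        ((univ.filter (fun b => t.K w = none ∧ t.K (t.E.N b w) = some i)).card : ℝ) := by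
      rw [← sum_boole]
      rfl
    rw [e1]
    refine Nat.cast_le.2 (card_le_card_of_injOn (fun b => t.E.N b w) ?_ ?_)
    · intro b hb
      obtain ⟨-, h1, h2⟩ := mem_filter.1 (mem_coe.1 hb)
      have hne : t.E.N b w ≠ w := by
        intro h
        rw [h, h1] at h2
        exact absurd h2 (by simp)
      exact mem_coe.2 (mem_filter.2 ⟨mem_filter.2 ⟨mem_univ _, hB.ed.sub b w hne⟩, h2⟩)
    · intro b hb b' _ he
      obtain ⟨-, h1, h2⟩ := mem_filter.1 (mem_coe.1 hb)
      have hne : t.E.N b w ≠ w := by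
        intro h
        rw [h, h1] at h2
        exact absurd h2 (by simp)
      exact t.E.uniq b b' w he hne
  · have e1 : ∑ b, sT P t (Sum.inr (Sum.inl i)) w b =
        ((univ.filter (fun b => t.K w = none ∧
          ∃ y, t.K y = some i ∧ t.F0 y ∧ t.G.Adj w y ∧ t.m y = b)).card : ℝ) := by
      rw [← sum_boole]
      rfl
    rw [e1]
    refine Nat.cast_le.2 (le_trans (card_le_card (t := ((nb t.G w).filter
      (fun v => t.K v = some i)).image t.m) ?_) card_image_le)
    intro b hb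
    obtain ⟨-, h1, y, h2, h3, h4, h5⟩ := mem_filter.1 hb
    exact mem_image.2 ⟨y, mem_filter.2 ⟨mem_filter.2 ⟨mem_univ _, h4⟩, h2⟩, h5⟩
  · have e1 : ∑ b, sT P t (Sum.inr (Sum.inr p)) w b ≤ ∑ b, if b = p.2 then (t.dk p.1 w : ℝ) else 0 := by
      refine sum_le_sum fun b _ => ?_
      show (if t.K w = none ∧ ¬ t.hv P p.1 w ∧ b = p.2 then (t.dk p.1 w : ℝ) else 0) ≤ _
      by_cases hb : b = p.2
      · rw [if_pos hb]
        split_ifs
        · exact le_refl _
        · exact Nat.cast_nonneg _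
      · rw [if_neg hb, if_neg (fun h => hb h.2.2)]
    refine le_trans e1 (le_of_eq ?_)
    rw [sum_ite_eq' univ p.2 (fun _ => (t.dk p.1 w : ℝ)), if_pos (mem_univ _)]
    rfl

private theorem STst_dkD (P : Par) (t : Td V κ) (hB : Bse P t) (i w : V) :
    (t.dk i w : ℝ) ≤ P.D := by
  rw [← hB.gr.reg w]
  exact Nat.cast_le.2 (card_le_card (filter_subset _ _))

private theorem STst_rs (P : Par) (t : Td V κ) (hB : Bse P t) (L : V → Finset κ)
    (j : V ⊕ V ⊕ (V × κ)) (w : V) (hw : w ∈ sU t) :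
    0 ≤ rs L (sT P t j) w ∧ rs L (sT P t j) w ≤ t.dk (sctr j) w := by
  have hK : t.K w = none := (mem_filter.1 hw).2.1
  refine ⟨sum_nonneg fun b _ => STst_nn P t j w b, le_trans ?_ (STst_row P t hB j w hK)⟩
  exact sum_le_sum_of_subset_of_nonneg (subset_univ _) fun b _ _ => STst_nn P t j w b

private theorem STst_nm (P : Par) (t : Td V κ) (hB : Bse P t) (L : V → Finset κ)
    (j : V ⊕ V ⊕ (V × κ)) : nm (sU t) L (sT P t j) ≤ 103 * P.delta * P.D ^ 2 := by
  unfold nm
  calc ∑ w ∈ sU t, ∑ b ∈ L w, sT P t j w b ≤ ∑ w ∈ sU t, (t.dk (sctr j) w : ℝ) :=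
        sum_le_sum fun w hw => (STst_rs P t hB L j w hw).2
    _ ≤ ∑ w ∈ univ.filter (fun w => t.K w ≠ some (sctr j)), (t.dk (sctr j) w : ℝ) := by
        refine sum_le_sum_of_subset_of_nonneg ?_ fun _ _ _ => Nat.cast_nonneg _
        intro w hw
        have hK : t.K w = none := (mem_filter.1 hw).2.1
        refine mem_filter.2 ⟨mem_univ _, ?_⟩
        rw [hK]
        exact (Option.some_ne_none _).symm
    _ ≤ ∑ v ∈ t.Ki (sctr j), (t.oo v : ℝ) := STst_dbl t _
    _ ≤ _ := hB.gr.d5 _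

/-- the number of the options which use a column -/
private theorem STst_Cv (P : Par) (t : Td V κ) (hB : Bse P t) (X : V → Prop) (cX : V → κ)
    (L : V → Finset κ) (hL : ∀ u ∈ sU t, L u ⊆ sO t X cX u) (v : V) :
    ∀ p ∈ Cv (sCS P t) (sU t) L v, t.E.N p.2 v = p.1 ∧ t.E.N p.2 v ≠ v := by
  intro p hp
  obtain ⟨-, h1, h2, h3⟩ := mem_filter.1 hp
  have hcr := (mem_filter.1 (hL _ h1 h2)).2.2.1
  have h3' : t.E.N p.2 p.1 = v := h3
  have e1 : t.E.N p.2 v = p.1 := by rw [← h3', t.E.inv]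
  refine ⟨e1, ?_⟩
  rw [e1, ← h3']
  exact fun h => hcr.1.1 h.symm

private theorem STst_CvD (P : Par) (t : Td V κ) (hB : Bse P t) (X : V → Prop) (cX : V → κ)
    (L : V → Finset κ) (hL : ∀ u ∈ sU t, L u ⊆ sO t X cX u) (v : V) :
    ((Cv (sCS P t) (sU t) L v).card : ℝ) ≤ P.D := by
  rw [← hB.gr.reg v]
  refine Nat.cast_le.2 (card_le_card_of_injOn (fun p => p.1) ?_ ?_)
  · intro p hp
    obtain ⟨h1, h2⟩ := STst_Cv P t hB X cX L hL v p (mem_coe.1 hp)
    refine mem_coe.2 (mem_filter.2 ⟨mem_univ _, ?_⟩)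
    show t.G.Adj v p.1
    rw [← h1]
    exact hB.ed.sub _ _ h2
  · intro p hp p' hp' he
    obtain ⟨h1, h2⟩ := STst_Cv P t hB X cX L hL v p (mem_coe.1 hp)
    obtain ⟨h1', h2'⟩ := STst_Cv P t hB X cX L hL v p' (mem_coe.1 hp')
    have he' : p.1 = p'.1 := he
    have e1 : t.E.N p.2 v = t.E.N p'.2 v := by rw [h1, h1', he']
    exact Prod.ext he' (t.E.uniq _ _ _ e1 h2)

private theorem STst_cs (P : Par) (t : Td V κ) (hB : Bse P t) (X : V → Prop) (cX : V → κ)
    (L : V → Finset κ) (hL : ∀ u ∈ sU t, L u ⊆ sO t X cX u) (j : V ⊕ V ⊕ (V × κ)) (v : V) :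
    0 ≤ cs (sCS P t) (sU t) L (sT P t j) v ∧ cs (sCS P t) (sU t) L (sT P t j) v ≤ P.D := by
  refine ⟨sum_nonneg fun p _ => STst_nn P t j _ _, ?_⟩
  unfold cs
  have hone : ∀ T : V → κ → ℝ, (∀ w b, T w b ≤ 1) →
      ∑ p ∈ Cv (sCS P t) (sU t) L v, T p.1 p.2 ≤ P.D := by
    intro T hT
    calc ∑ p ∈ Cv (sCS P t) (sU t) L v, T p.1 p.2 ≤ ∑ p ∈ Cv (sCS P t) (sU t) L v, (1 : ℝ) :=
          sum_le_sum fun p _ => hT _ _
      _ = ((Cv (sCS P t) (sU t) L v).card : ℝ) := by simp
      _ ≤ _ := STst_CvD P t hB X cX L hL v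
  rcases j with i | i | q
  · refine hone _ fun w b => ?_
    show (if _ then (1 : ℝ) else 0) ≤ 1
    split_ifs <;> norm_num
  · refine hone _ fun w b => ?_
    show (if _ then (1 : ℝ) else 0) ≤ 1
    split_ifs <;> norm_num
  · have e1 : ∑ p ∈ Cv (sCS P t) (sU t) L v, sT P t (Sum.inr (Sum.inr q)) p.1 p.2 ≤
        ∑ p ∈ Cv (sCS P t) (sU t) L v, if p = (t.E.N q.2 v, q.2) then (P.D : ℝ) else 0 := by
      refine sum_le_sum fun p hp => ?_
      show (if t.K p.1 = none ∧ ¬ t.hv P q.1 p.1 ∧ p.2 = q.2 then (t.dk q.1 p.1 : ℝ) else 0) ≤ _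
      by_cases hb : p.2 = q.2
      · have h1 := (STst_Cv P t hB X cX L hL v p hp).1
        have h2 : p = (t.E.N q.2 v, q.2) := by
          refine Prod.ext ?_ hb
          rw [← h1, hb]
        rw [if_pos h2]
        split_ifs
        · exact STst_dkD P t hB _ _
        · exact Nat.cast_nonneg _
      · rw [if_neg (fun h => hb h.2.2)]
        split_ifs
        · exact Nat.cast_nonneg _
        · exact le_refl _
    refine le_trans e1 ?_
    rw [sum_ite_eq']
    split_ifs
    · exact le_refl _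
    · exact Nat.cast_nonneg _

private theorem STst_sumcs (P : Par) (t : Td V κ) (L : V → Finset κ) (T : V → κ → ℝ) :
    ∑ v, cs (sCS P t) (sU t) L T v = nm (sU t) L T := by
  unfold cs nm Cv
  have e1 : ∀ v, ∑ p ∈ univ.filter (fun p : V × κ => p.1 ∈ sU t ∧ p.2 ∈ L p.1 ∧
      (sCS P t).r p.1 p.2 = v), T p.1 p.2 =
      ∑ p ∈ (univ.filter (fun p : V × κ => p.1 ∈ sU t ∧ p.2 ∈ L p.1)).filter
        (fun p => (sCS P t).r p.1 p.2 = v), T p.1 p.2 := by
    intro v
    rw [filter_filter]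
    refine sum_congr (filter_congr fun p _ => ?_) fun _ _ => rfl
    exact ⟨fun h => ⟨⟨h.1, h.2.1⟩, h.2.2⟩, fun h => ⟨h.1.1, h.1.2, h.2⟩⟩
  refine (sum_congr rfl fun v _ => e1 v).trans ((sum_fiberwise _
    (fun p : V × κ => (sCS P t).r p.1 p.2) (fun p => T p.1 p.2)).trans ?_)
  rw [sum_filter, Fintype.sum_prod_type]
  rw [← sum_filter_add_sum_filter_not univ (fun w => w ∈ sU t)]
  have e2 : ∑ w ∈ univ.filter (fun w => w ∉ sU t), ∑ b, (if w ∈ sU t ∧ b ∈ L w then T w b else 0)
      = 0 := by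
    refine sum_eq_zero fun w hw => sum_eq_zero fun b _ => ?_
    rw [if_neg (fun h => (mem_filter.1 hw).2 h.1)]
  rw [e2, add_zero]
  have e3 : univ.filter (fun w => w ∈ sU t) = sU t := by ext w; simp
  rw [e3]
  refine sum_congr rfl fun w hw => ?_
  rw [← sum_filter]
  refine sum_congr ?_ fun _ _ => rfl
  ext b
  simp [hw]

end stst

theorem thm_STst : St_STst := by
  intro P V κ _ _ t X cX L hP hB hL
  obtain ⟨D1, eD, e0, d0⟩ := STst_num P hP
  have hnm := STst_nm P t hB L
  refine ⟨?_, hnm, ?_⟩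
  · refine ⟨STst_nn P t, ?_, fun _ => by linarith, ?_, ?_⟩
    · intro j w b
      rcases j with i | i | p
      · show (if _ then (1 : ℝ) else 0) ≤ P.eta * P.D
        split_ifs <;> linarith
      · show (if _ then (1 : ℝ) else 0) ≤ P.eta * P.D
        split_ifs <;> linarith
      · show (if t.K w = none ∧ ¬ t.hv P p.1 w ∧ b = p.2 then (t.dk p.1 w : ℝ) else 0) ≤
          P.eta * P.D
        split_ifs with h
        · by_contra hc
          refine h.2.1 ⟨?_, (not_le.1 hc).le⟩
          rw [h.1]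
          exact (Option.some_ne_none _).symm
        · linarith
    · intro j w b hj
      rcases j with i | i | p
      · have h : t.K w = none ∧ t.K (t.E.N b w) = some i := by
          by_contra hc
          exact hj (if_neg hc)
        exact STst_near P t hB h.2 (Or.inr (Or.inr (Or.inr ⟨b, rfl⟩)))
      · have h : t.K w = none ∧ ∃ y, t.K y = some i ∧ t.F0 y ∧ t.G.Adj w y ∧ t.m y = b := by
          by_contra hc
          exact hj (if_neg hc)
        obtain ⟨-, y, h1, -, h2, -⟩ := h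
        exact STst_near P t hB h1 (Or.inr (Or.inl (Or.inl h2.symm)))
      · have h : t.K w = none ∧ ¬ t.hv P p.1 w ∧ b = p.2 := by
          by_contra hc
          exact hj (if_neg hc)
        have h' : (t.dk p.1 w : ℝ) ≠ 0 := by
          intro h0
          refine hj ?_
          show (if t.K w = none ∧ ¬ t.hv P p.1 w ∧ b = p.2 then (t.dk p.1 w : ℝ) else 0) = 0
          rw [if_pos h, h0]
        obtain ⟨y, h1, h2⟩ := STst_dk t (Nat.cast_ne_zero.1 h')
        exact STst_near P t hB h1 (Or.inr (Or.inl (Or.inl h2.symm)))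
    · intro v
      have hD1 : 1 ≤ P.D := by exact_mod_cast D1
      have hsub : univ.filter (fun j : V ⊕ V ⊕ (V × κ) => sctr j = v) ⊆
          insert (Sum.inl v) (insert (Sum.inr (Sum.inl v))
            ((univ : Finset κ).image fun b => Sum.inr (Sum.inr (v, b)))) := by
        intro j hj
        have hj' := (mem_filter.1 hj).2
        rcases j with i | i | p
        · have : i = v := hj'
          rw [this]
          exact mem_insert_self _ _
        · have : i = v := hj'
          rw [this]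
          exact mem_insert_of_mem (mem_insert_self _ _)
        · have : p.1 = v := hj'
          refine mem_insert_of_mem (mem_insert_of_mem (mem_image.2 ⟨p.2, mem_univ _, ?_⟩))
          rw [← this]
      have h1 : (univ.filter (fun j : V ⊕ V ⊕ (V × κ) => sctr j = v)).card ≤ P.D + 3 := by
        refine le_trans (card_le_card hsub) ?_
        refine le_trans (card_insert_le _ _) ?_
        have h2 := card_insert_le (Sum.inr (Sum.inl v) : V ⊕ V ⊕ (V × κ))
          ((univ : Finset κ).image fun b => Sum.inr (Sum.inr (v, b)))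
        have h3 : ((univ : Finset κ).image
            fun b => (Sum.inr (Sum.inr (v, b)) : V ⊕ V ⊕ (V × κ))).card ≤ P.D + 1 := by
          refine le_trans card_image_le ?_
          rw [card_univ, hB.ed.col]
        omega
      refine le_trans h1 ?_
      have h4 : 2 * P.D * 2 ^ 4 ≤ 2 * P.D * (2 * P.D) ^ 4 :=
        Nat.mul_le_mul_left _ (Nat.pow_le_pow_left (by omega) 4)
      calc P.D + 3 ≤ 2 * P.D * 2 ^ 4 := by omega
        _ ≤ 2 * P.D * (2 * P.D) ^ 4 := h4
        _ = (2 * P.D) ^ 5 := by ring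
  · intro j
    have hD0 : (0 : ℝ) ≤ P.D := by linarith
    unfold sq
    have e1 : ∑ w ∈ sU t, rs L (sT P t j) w ^ 2 ≤ P.D * nm (sU t) L (sT P t j) := by
      unfold nm
      rw [mul_sum]
      refine sum_le_sum fun w hw => ?_
      obtain ⟨h1, h2⟩ := STst_rs P t hB L j w hw
      have h3 := STst_dkD P t hB (sctr j) w
      have h4 : rs L (sT P t j) w ≤ P.D := h2.trans h3
      calc rs L (sT P t j) w ^ 2 = rs L (sT P t j) w * rs L (sT P t j) w := pow_two _
        _ ≤ P.D * rs L (sT P t j) w := mul_le_mul_of_nonneg_right h4 h1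
        _ = _ := rfl
    have e2 : ∑ v, cs (sCS P t) (sU t) L (sT P t j) v ^ 2 ≤ P.D * nm (sU t) L (sT P t j) := by
      rw [← STst_sumcs P t L, mul_sum]
      refine sum_le_sum fun v _ => ?_
      obtain ⟨h1, h2⟩ := STst_cs P t hB X cX L hL j v
      rw [pow_two]
      exact mul_le_mul_of_nonneg_right h2 h1
    have e3 : (P.D : ℝ) * nm (sU t) L (sT P t j) ≤ P.D * (103 * P.delta * P.D ^ 2) :=
      mul_le_mul_of_nonneg_left (hnm j) hD0
    have e4 : (P.D : ℝ) * (103 * P.delta * P.D ^ 2) = 103 * P.delta * P.D ^ 3 := by ring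
    linarith

end Pool.TCU
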